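import Pool.Agent.LE.StmtsW
import Pool.Agent.Helper93_LEC.BES

/-!
# OSC: the moments of the oscillation
-/

set_option autoImplicit false

open MeasureTheory ProbabilityTheory Function Filter

open scoped ENNReal BigOperators Topology

noncomputable section

namespace Pool.Agent.LE.H28W

open Pool.Agent.Anderson Pool.Agent.Loc Pool.Agent.Mob Pool.Agent.Helper54.Bal

theorem sum_tail (q : ℕ) : ∃ K : ℝ, 0 < K ∧
    ∑' k : ℕ, ENNReal.ofReal (((k : ℝ) + 1) ^ q * Real.exp (-(k : ℝ))) ≤ ENNReal.ofReal K := by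
  have hr : ‖Real.exp (-1)‖ < 1 := by
    rw [Real.norm_of_nonneg (Real.exp_pos _).le]
    have := Real.exp_lt_exp.mpr (show (-1 : ℝ) < 0 by norm_num)
    rwa [Real.exp_zero] at this
  have h1 := summable_pow_mul_geometric_of_norm_lt_one q hr
  have h2 := (summable_nat_add_iff 1).mpr h1
  have h3 : Summable fun k : ℕ => ((k : ℝ) + 1) ^ q * Real.exp (-(k : ℝ)) := by
    have h4 := h2.mul_left (Real.exp 1)
    refine h4.congr fun k => ?_
    have h5 : Real.exp (-1) ^ (k + 1) = Real.exp (-(k : ℝ)) * Real.exp (-1) := by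
      rw [pow_succ, ← Real.exp_nat_mul]
      congr 2
      ring
    rw [h5]
    have h6 : Real.exp 1 * Real.exp (-1) = 1 := by
      rw [← Real.exp_add, add_neg_cancel, Real.exp_zero]
    push_cast
    calc Real.exp 1 * (((k : ℝ) + 1) ^ q * (Real.exp (-(k : ℝ)) * Real.exp (-1)))
        = ((k : ℝ) + 1) ^ q * Real.exp (-(k : ℝ)) * (Real.exp 1 * Real.exp (-1)) := by ring
      _ = _ := by rw [h6, mul_one]
  have h0 : ∀ k : ℕ, 0 ≤ ((k : ℝ) + 1) ^ q * Real.exp (-(k : ℝ)) := fun k => by positivity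
  refine ⟨(∑' k : ℕ, ((k : ℝ) + 1) ^ q * Real.exp (-(k : ℝ))) + 1, ?_, ?_⟩
  · have h7 : 0 ≤ ∑' k : ℕ, ((k : ℝ) + 1) ^ q * Real.exp (-(k : ℝ)) := tsum_nonneg h0
    linarith
  · rw [← ENNReal.ofReal_tsum_of_nonneg h0 h3]
    exact ENNReal.ofReal_le_ofReal (by linarith)

theorem tail_bound {Ω : Type} [MeasurableSpace Ω] (P : Measure Ω) {q : ℕ} (hq : 1 ≤ q)
    {T : Ω → ℝ} {B K : ℝ} (hB : 0 ≤ B)
    (hK : ∑' k : ℕ, ENNReal.ofReal (((k : ℝ) + 1) ^ q * Real.exp (-(k : ℝ))) ≤ ENNReal.ofReal K)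
    (h : ∀ t : ℝ, P {ω | t < T ω} ≤ ENNReal.ofReal (B * Real.exp (-t))) :
    ∃ G : Ω → ℝ≥0∞, Measurable G ∧ (∀ ω, (ENNReal.ofReal (T ω)) ^ q ≤ G ω) ∧
      ∫⁻ ω, G ω ∂P ≤ ENNReal.ofReal (B * K) := by
  have hm : ∀ k : ℕ, Measurable fun ω => ENNReal.ofReal (((k : ℝ) + 1) ^ q) *
      (toMeasurable P {ω | (k : ℝ) < T ω}).indicator (fun _ => (1 : ℝ≥0∞)) ω := fun k =>
    (measurable_const.indicator (measurableSet_toMeasurable P _)).const_mul _
  refine ⟨fun ω => ∑' k : ℕ, ENNReal.ofReal (((k : ℝ) + 1) ^ q) *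
    (toMeasurable P {ω | (k : ℝ) < T ω}).indicator (fun _ => (1 : ℝ≥0∞)) ω,
    Measurable.tsum hm, ?_, ?_⟩
  · intro ω
    rcases le_or_gt (T ω) 0 with h0 | h0
    · rw [ENNReal.ofReal_of_nonpos h0, zero_pow (by omega)]
      exact bot_le
    · have hc : 0 < ⌈T ω⌉₊ := Nat.ceil_pos.mpr h0
      obtain ⟨k, hk⟩ : ∃ k : ℕ, ⌈T ω⌉₊ = k + 1 := ⟨⌈T ω⌉₊ - 1, by omega⟩
      have h1 : T ω ≤ (k : ℝ) + 1 := by
        have := Nat.le_ceil (T ω)
        rw [hk] at this
        push_cast at this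
        exact this
      have h2 : (k : ℝ) < T ω := by
        have := Nat.lt_ceil.mp (show k < ⌈T ω⌉₊ by omega)
        exact this
      refine le_trans ?_ (ENNReal.le_tsum k)
      rw [Set.indicator_of_mem (subset_toMeasurable P _ h2), mul_one, ← ENNReal.ofReal_pow h0.le]
      exact ENNReal.ofReal_le_ofReal (pow_le_pow_left₀ h0.le h1 q)
  · rw [lintegral_tsum fun k => (hm k).aemeasurable]
    have h1 : ∀ k : ℕ, ∫⁻ ω, ENNReal.ofReal (((k : ℝ) + 1) ^ q) *
        (toMeasurable P {ω | (k : ℝ) < T ω}).indicator (fun _ => (1 : ℝ≥0∞)) ω ∂P ≤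
        ENNReal.ofReal B * ENNReal.ofReal (((k : ℝ) + 1) ^ q * Real.exp (-(k : ℝ))) := by
      intro k
      rw [lintegral_const_mul _
        (measurable_const.indicator (measurableSet_toMeasurable P _)),
        lintegral_indicator_const (measurableSet_toMeasurable P _), one_mul,
        measure_toMeasurable, ENNReal.ofReal_mul (by positivity)]
      calc ENNReal.ofReal (((k : ℝ) + 1) ^ q) * P {ω | (k : ℝ) < T ω}
          ≤ ENNReal.ofReal (((k : ℝ) + 1) ^ q) * ENNReal.ofReal (B * Real.exp (-(k : ℝ))) :=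
            mul_le_mul_right (h k) _
        _ = _ := by
            rw [ENNReal.ofReal_mul hB]
            ring
    refine (ENNReal.tsum_le_tsum h1).trans ?_
    rw [ENNReal.tsum_mul_left, ENNReal.ofReal_mul hB]
    exact mul_le_mul_right hK _

theorem add_pow_le' (a b : ℝ≥0∞) (q : ℕ) : (a + b) ^ q ≤ 2 ^ q * (a ^ q + b ^ q) := by
  rcases le_total a b with h | h
  · calc (a + b) ^ q ≤ (2 * b) ^ q := by
          apply pow_le_pow_left' _ q
          rw [two_mul]
          exact add_le_add h le_rfl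
      _ = 2 ^ q * b ^ q := mul_pow _ _ _
      _ ≤ _ := mul_le_mul_right le_add_self _
  · calc (a + b) ^ q ≤ (2 * a) ^ q := by
          apply pow_le_pow_left' _ q
          rw [two_mul]
          exact add_le_add le_rfl h
      _ = 2 ^ q * a ^ q := mul_pow _ _ _
      _ ≤ _ := mul_le_mul_right le_self_add _

theorem self_mem {d : ℕ} (c : Site d) (s : ℕ) : c ∈ box c s := by
  rw [mem_box, sd_le_iff]
  intro i
  rw [sub_self, abs_zero]
  exact Int.natCast_nonneg s

theorem osc_pow_le {d : ℕ} (V : Site d → ℝ) (N : ℕ) (E : ℝ) (S : Finset (Site d)) (c : Site d)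
    (s q : ℕ) : (osc V N E S c s) ^ q ≤
      ∑ x ∈ box c s, (ENNReal.ofReal |FD V (box 0 N) E S x - FD V (box 0 N) E S c|) ^ q := by
  have hne : (box c s).Nonempty := ⟨c, self_mem c s⟩
  unfold osc
  obtain ⟨x, hx, h⟩ := Finset.exists_mem_eq_sup (box c s) hne
    (fun x => ENNReal.ofReal |FD V (box 0 N) E S x - FD V (box 0 N) E S c|)
  rw [h]
  exact Finset.single_le_sum
    (f := fun x => (ENNReal.ofReal |FD V (box 0 N) E S x - FD V (box 0 N) E S c|) ^ q)
    (fun _ _ => bot_le) hx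

theorem osc (trf : TrfStmt) (cst : CstStmt) : OscStmt := by
  intro d hd
  obtain ⟨A, hA, hcst⟩ := cst d hd
  refine ⟨A, hA, fun q => ?_⟩
  rcases Nat.eq_zero_or_pos q with hq | hq
  · refine ⟨1, one_pos, ?_⟩
    intro σ E N s S c hσ hσ1 hE hs hS hSN hcN
    rw [hq]
    simp only [pow_zero]
    rw [lintegral_one]
    have h1 : (1 : ℝ) ≤ |σ| ^ (-A) := by
      have hp : 0 < |σ| := abs_pos.mpr hσ
      have := Real.one_le_rpow_of_pos_of_le_one_of_nonpos hp hσ1 (show -A ≤ 0 by linarith)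
      exact this
    have h2 : (1 : ℝ) ≤ (s : ℝ) ^ (0 + d + 1) := one_le_pow₀ (by exact_mod_cast hs)
    have h3 : (PP d (gl σ)) Set.univ = 1 := measure_univ
    rw [h3, ← ENNReal.ofReal_one]
    apply ENNReal.ofReal_le_ofReal
    nlinarith
  obtain ⟨C1, hC1, hcst'⟩ := hcst q hq
  obtain ⟨K, hK, hK'⟩ := sum_tail q
  refine ⟨3 ^ d * 2 ^ q * (C1 * 2 ^ q + 16 * K), by positivity, ?_⟩
  intro σ E N s S c hσ hσ1 hE hs hS hSN hcN
  have hσp : 0 < |σ| := abs_pos.mpr hσ
  have hc0 : c ∈ box (0 : Site d) N := hcN (self_mem c s)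
  have hB : (0 : ℝ) ≤ 16 / |σ| := by positivity
  have key : ∀ x ∈ box c s, ∃ G : (Site d → ℝ) → ℝ≥0∞, Measurable G ∧
      (∀ V, (ENNReal.ofReal |FD V (box 0 N) E S x - FD V (box 0 N) E S c|) ^ q ≤
        2 ^ q * ((ENNReal.ofReal (DL (box 0 N) E V c x)) ^ q + G V)) ∧
      ∫⁻ V, G V ∂(PP d (gl σ)) ≤ ENNReal.ofReal (16 / |σ| * K) := by
    intro x hx
    have hx0 := hcN hx
    obtain ⟨G, hG, hG1, hG2⟩ := tail_bound (PP d (gl σ)) hq (B := 16 / |σ|) (K := K)
      (T := fun V => |FD V (box 0 N) E S c - FD V (box 0 N) E S x| - DL (box 0 N) E V c x) hB hK'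
      (fun t => by
        refine le_trans (measure_mono ?_) (trf d N σ E t S c x hd hσ hS hSN hc0 hx0)
        intro V hV hcon
        have hV' : t < |FD V (box 0 N) E S c - FD V (box 0 N) E S x| - DL (box 0 N) E V c x := hV
        linarith)
    refine ⟨G, hG, fun V => ?_, hG2⟩
    have h1 : ENNReal.ofReal |FD V (box 0 N) E S x - FD V (box 0 N) E S c| ≤
        ENNReal.ofReal (DL (box 0 N) E V c x) +
          ENNReal.ofReal (|FD V (box 0 N) E S c - FD V (box 0 N) E S x| -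
            DL (box 0 N) E V c x) := by
      have h2 : |FD V (box 0 N) E S x - FD V (box 0 N) E S c| = DL (box 0 N) E V c x +
          (|FD V (box 0 N) E S c - FD V (box 0 N) E S x| - DL (box 0 N) E V c x) := by
        rw [abs_sub_comm]
        ring
      rw [h2]
      exact ENNReal.ofReal_add_le
    calc (ENNReal.ofReal |FD V (box 0 N) E S x - FD V (box 0 N) E S c|) ^ q
        ≤ (ENNReal.ofReal (DL (box 0 N) E V c x) +
          ENNReal.ofReal (|FD V (box 0 N) E S c - FD V (box 0 N) E S x| -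
            DL (box 0 N) E V c x)) ^ q := pow_le_pow_left' h1 q
      _ ≤ _ := (add_pow_le' _ _ q).trans (mul_le_mul_right (add_le_add le_rfl (hG1 V)) _)
  choose! G hGm hG1 hG2 using key
  have hmD : ∀ x, Measurable fun V : Site d → ℝ => (ENNReal.ofReal (DL (box 0 N) E V c x)) ^ q :=
    fun x => (H93C.measurable_DL (box 0 N) E c x).ennreal_ofReal.pow_const q
  calc ∫⁻ V, (Pool.Agent.LE.osc V N E S c s) ^ q ∂(PP d (gl σ))
      ≤ ∫⁻ V, ∑ x ∈ box c s, 2 ^ q * ((ENNReal.ofReal (DL (box 0 N) E V c x)) ^ q + G x V)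
          ∂(PP d (gl σ)) := by
        refine lintegral_mono fun V => ?_
        exact (osc_pow_le V N E S c s q).trans (Finset.sum_le_sum fun x hx => hG1 x hx V)
    _ = ∑ x ∈ box c s, ∫⁻ V, 2 ^ q * ((ENNReal.ofReal (DL (box 0 N) E V c x)) ^ q + G x V)
          ∂(PP d (gl σ)) :=
        lintegral_finsetSum _ fun x hx => ((hmD x).add (hGm x hx)).const_mul _
    _ ≤ ∑ x ∈ box c s, ENNReal.ofReal (|σ| ^ (-A) * (s : ℝ) ^ q * (2 ^ q * (C1 * 2 ^ q + 16 * K))) := by
        refine Finset.sum_le_sum fun x hx => ?_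
        have hL : ∫⁻ V, 2 ^ q * ((ENNReal.ofReal (DL (box 0 N) E V c x)) ^ q + G x V)
            ∂(PP d (gl σ)) = 2 ^ q * (∫⁻ V, (ENNReal.ofReal (DL (box 0 N) E V c x)) ^ q
              ∂(PP d (gl σ)) + ∫⁻ V, G x V ∂(PP d (gl σ))) := by
          have hL1 := lintegral_const_mul (μ := PP d (gl σ)) ((2 : ℝ≥0∞) ^ q)
            ((hmD x).add (hGm x hx))
          have hL2 := lintegral_add_left (μ := PP d (gl σ)) (hmD x) (G x)
          rw [← hL2]
          exact hL1
        rw [hL]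
        have h1 := hcst' σ E N c x hσ hσ1 hE hc0 (hcN hx)
        have hsd : (sd c x : ℝ) ≤ s := by
          have : sd c x ≤ s := mem_box.mp hx
          exact_mod_cast this
        have hs1 : (1 : ℝ) ≤ s := by exact_mod_cast hs
        have hR : 0 < |σ| ^ (-A) := Real.rpow_pos_of_pos hσp _
        have h2 : C1 * |σ| ^ (-A) * ((sd c x : ℝ) + 1) ^ q ≤
            C1 * |σ| ^ (-A) * (2 ^ q * (s : ℝ) ^ q) := by
          apply mul_le_mul_of_nonneg_left _ (by positivity)
          rw [← mul_pow]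
          apply pow_le_pow_left₀ (by positivity)
          linarith
        have h3 : 16 / |σ| * K ≤ 16 * |σ| ^ (-A) * K * (s : ℝ) ^ q := by
          have h4 : 1 / |σ| ≤ |σ| ^ (-A) := by
            rw [one_div, ← Real.rpow_neg_one]
            exact Real.rpow_le_rpow_of_exponent_ge hσp hσ1 (by linarith)
          have h5 : (1 : ℝ) ≤ (s : ℝ) ^ q := one_le_pow₀ hs1
          calc 16 / |σ| * K = 16 * K * (1 / |σ|) * 1 := by ring
            _ ≤ 16 * K * |σ| ^ (-A) * (s : ℝ) ^ q := by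
                apply mul_le_mul _ h5 zero_le_one (by positivity)
                exact mul_le_mul_of_nonneg_left h4 (by positivity)
            _ = _ := by ring
        have h6 : (2 : ℝ≥0∞) ^ q = ENNReal.ofReal (2 ^ q) := by
          rw [ENNReal.ofReal_pow (by norm_num)]
          congr 1
          exact (ENNReal.ofReal_ofNat 2).symm
        calc 2 ^ q * (∫⁻ V, (ENNReal.ofReal (DL (box 0 N) E V c x)) ^ q ∂(PP d (gl σ)) +
              ∫⁻ V, G x V ∂(PP d (gl σ)))
            ≤ ENNReal.ofReal (2 ^ q) * (ENNReal.ofReal (C1 * |σ| ^ (-A) * (2 ^ q * (s : ℝ) ^ q)) +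
                ENNReal.ofReal (16 * |σ| ^ (-A) * K * (s : ℝ) ^ q)) := by
              rw [h6]
              refine mul_le_mul_right (add_le_add (h1.trans (ENNReal.ofReal_le_ofReal h2))
                ((hG2 x hx).trans (ENNReal.ofReal_le_ofReal h3))) _
          _ = _ := by
              rw [← ENNReal.ofReal_add (by positivity) (by positivity),
                ← ENNReal.ofReal_mul (by positivity)]
              congr 1
              ring
    _ ≤ ENNReal.ofReal (3 ^ d * 2 ^ q * (C1 * 2 ^ q + 16 * K) * |σ| ^ (-A) *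
          (s : ℝ) ^ (q + d + 1)) := by
        rw [Finset.sum_const, card_box, nsmul_eq_mul]
        have hs1 : (1 : ℝ) ≤ s := by exact_mod_cast hs
        have hR : 0 < |σ| ^ (-A) := Real.rpow_pos_of_pos hσp _
        have h7 : (((2 * s + 1) ^ d : ℕ) : ℝ≥0∞) = ENNReal.ofReal ((2 * (s : ℝ) + 1) ^ d) := by
          rw [← ENNReal.ofReal_natCast]
          congr 1
          push_cast
          ring
        rw [h7, ← ENNReal.ofReal_mul (by positivity)]
        apply ENNReal.ofReal_le_ofReal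
        have h8 : (2 * (s : ℝ) + 1) ^ d ≤ 3 ^ d * (s : ℝ) ^ d := by
          rw [← mul_pow]
          apply pow_le_pow_left₀ (by positivity)
          linarith
        calc (2 * (s : ℝ) + 1) ^ d * (|σ| ^ (-A) * (s : ℝ) ^ q * (2 ^ q * (C1 * 2 ^ q + 16 * K)))
            ≤ (3 ^ d * (s : ℝ) ^ d) *
              (|σ| ^ (-A) * (s : ℝ) ^ q * (2 ^ q * (C1 * 2 ^ q + 16 * K))) :=
              mul_le_mul_of_nonneg_right h8 (by positivity)
          _ = (3 ^ d * 2 ^ q * (C1 * 2 ^ q + 16 * K) * |σ| ^ (-A) * (s : ℝ) ^ (q + d)) * 1 := by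
              rw [pow_add]
              ring
          _ ≤ (3 ^ d * 2 ^ q * (C1 * 2 ^ q + 16 * K) * |σ| ^ (-A) * (s : ℝ) ^ (q + d)) * s :=
              mul_le_mul_of_nonneg_left hs1 (by positivity)
          _ = _ := by
              rw [pow_succ]
              ring

end Pool.Agent.LE.H28W
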