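import Pool.Agent.LE.StmtsX
import Pool.Agent.Helper3_LEW.CST
import Pool.Agent.Helper28_LEW.OSC

/-!
# OSCB: the moments of the oscillation for `|E| ≤ B`

The moments of `D^+` for `|E| ≤ B` follow `Pool.Agent.LE.H3W.cst` of helper3.
-/

set_option autoImplicit false
set_option linter.unusedSectionVars false

open scoped Topology ENNReal BigOperators
open MeasureTheory Filter ProbabilityTheory

noncomputable section

namespace Pool.Agent.LE.H28W

open Pool.Agent.Anderson Pool.Agent.Loc Pool.Agent.Mob Pool.Agent.Helper54.Bal Pool.Agent.LY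
  Pool.Agent.LE.H54 Pool.Agent.LE.H26U Pool.Agent.LE.H3W

/-- the negative moment -/
theorem lowPB {d : ℕ} (hd : 1 ≤ d) {B : ℝ} (hB : 0 < B) : ∃ K : ℝ, 0 < K ∧ ∀ σ E : ℝ, σ ≠ 0 →
    |σ| ≤ 1 → |E| ≤ B →
    ∀ (Λ : Finset (Site d)) (x y : Site d), x ∈ Λ → y ∈ Λ → (x = y ∨ hop x y ≠ 0) →
    ∫⁻ V, (ENNReal.ofReal |gr V Λ E x y|) ^ (-(1 / 4) : ℝ) ∂(PL (gl σ) Λ) ≤
      ENNReal.ofReal (K * (1 / |σ|) ^ (5 ^ d)) := by
  set M : ℝ := 32 * (d : ℝ) ^ 2 + 4 + (2 * d + 1) + B with hM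
  have hM0 : 0 < M := by positivity
  set K : ℝ≥0∞ := (ENNReal.ofReal M * (2 + mom1 (gl 1) + ENNReal.ofReal 3)) ^ (5 ^ d) *
      (ENNReal.ofReal (1 / (16 * M ^ 2))) ^ (-(1 / 4) : ℝ) with hK
  have hKt : K ≠ ∞ := by
    refine ENNReal.mul_ne_top (ENNReal.pow_ne_top (ENNReal.mul_ne_top ENNReal.ofReal_ne_top ?_)) ?_
    · refine ENNReal.add_ne_top.2 ⟨ENNReal.add_ne_top.2 ⟨by norm_num, mom1_gl 1⟩,
        ENNReal.ofReal_ne_top⟩
    · refine ENNReal.rpow_ne_top_of_ne_zero ?_ ENNReal.ofReal_ne_top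
      rw [Ne, ENNReal.ofReal_eq_zero, not_le]
      positivity
  refine ⟨K.toReal + 1, by positivity, ?_⟩
  intro σ E hσ hs hE Λ x y hx hy hxy
  have h1 := low (bddDens_gl hσ) (M := M) (E := E) (by rw [hM]; linarith) Λ
    (by
      rw [hM]
      have : 0 ≤ 32 * (d : ℝ) ^ 2 := by positivity
      linarith) hx hy hxy
  refine h1.trans ?_
  have h2 : Clow d (gl σ) (1 / |σ|) M ≤ ENNReal.ofReal (1 / |σ|) ^ (5 ^ d) * K := by
    unfold Clow
    calc CC (gl σ) (1 / |σ|) M ^ (5 ^ d) * (ENNReal.ofReal (1 / (16 * M ^ 2))) ^ (-(1 / 4) : ℝ)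
        ≤ (ENNReal.ofReal (1 / |σ|) * (ENNReal.ofReal M * (2 + mom1 (gl 1) +
          ENNReal.ofReal 3))) ^ (5 ^ d) *
          (ENNReal.ofReal (1 / (16 * M ^ 2))) ^ (-(1 / 4) : ℝ) := by
          gcongr
          exact CC_le' hσ hs M
      _ = _ := by
          rw [mul_pow, mul_assoc]
  refine h2.trans ?_
  rw [← ENNReal.ofReal_pow (by positivity), ← ENNReal.ofReal_toReal hKt,
    ← ENNReal.ofReal_mul (by positivity)]
  apply ENNReal.ofReal_le_ofReal
  rw [ENNReal.toReal_ofReal ENNReal.toReal_nonneg, mul_comm]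
  apply mul_le_mul_of_nonneg_right _ (by positivity)
  linarith

theorem cstB {d : ℕ} (hd : 1 ≤ d) {B : ℝ} (hB : 0 < B) : ∃ A : ℝ, 1 ≤ A ∧ ∀ q : ℕ, 1 ≤ q →
    ∃ C : ℝ, 0 < C ∧ ∀ (σ E : ℝ) (N : ℕ)
    (x y : Site d), σ ≠ 0 → |σ| ≤ 1 → |E| ≤ B → x ∈ box (0 : Site d) N →
    y ∈ box (0 : Site d) N →
      ∫⁻ V, (ENNReal.ofReal (DL (box 0 N) E V x y)) ^ q ∂(PP d (gl σ)) ≤
        ENNReal.ofReal (C * |σ| ^ (-A) * ((sd x y : ℝ) + 1) ^ q) := by
  obtain ⟨K, hK, hlow⟩ := lowPB hd hB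
  refine ⟨(5 ^ d : ℕ), by exact_mod_cast Nat.one_le_pow _ _ (by norm_num), ?_⟩
  intro q hq
  have hq1 : (1 : ℝ) ≤ q := by exact_mod_cast hq
  have hq0 : (0 : ℝ) < q := by linarith
  set qq : ℝ := (q : ℝ) with hqq
  refine ⟨(d : ℝ) ^ q * (2 ^ q * ((4 * qq) ^ qq * K + (2 * qq) ^ qq * 9)), ?_, ?_⟩
  · have : (0 : ℝ) < d := by exact_mod_cast hd
    positivity
  intro σ E N x y hσ hs hE hx hy
  have hs0 : 0 < |σ| := abs_pos.2 hσ
  have hL : 1 ≤ 1 / |σ| := by
    rw [le_div_iff₀ hs0, one_mul]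
    exact hs
  have hd1 : (1 : ℝ) ≤ d := by exact_mod_cast hd
  set Λ := box (0 : Site d) N with hΛ
  set P : ℝ := (1 / |σ|) ^ (5 ^ d) with hP
  have hP1 : 1 / |σ| ≤ P := by
    rw [hP]
    exact le_self_pow₀ hL (by positivity)
  have hP0 : 0 < P := by positivity
  set a : ℝ := (4 * qq) ^ qq * (K * P) with ha
  set b : ℝ := (2 * qq) ^ qq * (1 + 8 * (1 / |σ|)) with hb
  have ha0 : 0 ≤ a := by positivity
  have hb0 : 0 ≤ b := by positivity
  have hab : a + b ≤ ((4 * qq) ^ qq * K + (2 * qq) ^ qq * 9) * P := by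
    have h1 : 1 + 8 * (1 / |σ|) ≤ 9 * P := by linarith
    have h2 : b ≤ (2 * qq) ^ qq * (9 * P) := mul_le_mul_of_nonneg_left h1 (by positivity)
    calc a + b ≤ (4 * qq) ^ qq * (K * P) + (2 * qq) ^ qq * (9 * P) := by linarith
      _ = _ := by ring
  have mg : Measurable fun V : Site d → ℝ => gr V Λ E x y := measurable_gr Λ E x y
  have mD : Measurable fun V : Site d → ℝ => Dp (gr V Λ E x y) := measurable_Dp.comp mg
  have hp := path_in (σ := σ) (E := E) (p := qq) (N := N) hq1 (C1 := a ^ (1 / qq))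
    (C2 := b ^ (1 / qq)) (by positivity) (by positivity)
    (fun x y hx hy hxy => nearP hK hσ hq0 _ x y (hlow σ E hσ hs hE _ x y hx hy hxy))
    (fun x u y => ratioC hσ E hq0 _ x u y) hx (l1 x y) y rfl hy
  have hDL : ∀ V : Site d → ℝ, (ENNReal.ofReal (DL Λ E V x y)) ^ q ≤
      (Dp (gr V Λ E x y)) ^ qq := by
    intro V
    rw [hqq, ENNReal.rpow_natCast]
    apply pow_le_pow_left'
    unfold DL Dp
    split_ifs
    · exact le_top
    · exact le_rfl
  calc ∫⁻ V, (ENNReal.ofReal (DL Λ E V x y)) ^ q ∂(PP d (gl σ))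
      ≤ ∫⁻ V, (Dp (gr V Λ E x y)) ^ qq ∂(PP d (gl σ)) := lintegral_mono hDL
    _ = ∫⁻ V, (Dp (gr V Λ E x y)) ^ qq ∂(PL (gl σ) Λ) :=
        lint_PP Λ (mD.pow_const _) (fun V V' hV => by rw [gr_congr hV])
    _ = (Nn (PL (gl σ) Λ) qq (fun V => Dp (gr V Λ E x y))) ^ qq := (Nn_rpow hq0 _).symm
    _ ≤ (ENNReal.ofReal (((l1 x y : ℝ) + 1) * (a ^ (1 / qq) + b ^ (1 / qq)))) ^ qq :=
        ENNReal.rpow_le_rpow hp hq0.le
    _ ≤ _ := by
        rw [ENNReal.ofReal_rpow_of_nonneg (by positivity) hq0.le]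
        apply ENNReal.ofReal_le_ofReal
        have h3 : (l1 x y : ℝ) ≤ d * sd x y := by exact_mod_cast l1_le x y le_rfl
        have h5 : ((l1 x y : ℝ) + 1) ≤ d * ((sd x y : ℝ) + 1) := by linarith
        have h6 : (((l1 x y : ℝ) + 1)) ^ qq ≤ (d * ((sd x y : ℝ) + 1)) ^ qq :=
          Real.rpow_le_rpow (by positivity) h5 hq0.le
        have h7 := add_rpow_root ha0 hb0 hq0
        have h8 : |σ| ^ (-((5 ^ d : ℕ) : ℝ)) = P := by
          rw [Real.rpow_neg hs0.le, Real.rpow_natCast, hP, one_div, inv_pow]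
        rw [h8, Real.mul_rpow (by positivity) (by positivity)]
        have h9 : (d * ((sd x y : ℝ) + 1)) ^ qq = (d : ℝ) ^ q * ((sd x y : ℝ) + 1) ^ q := by
          rw [hqq, Real.rpow_natCast, mul_pow]
        have h10 : (2 : ℝ) ^ qq = 2 ^ q := by rw [hqq, Real.rpow_natCast]
        rw [h9] at h6
        rw [h10] at h7
        calc ((l1 x y : ℝ) + 1) ^ qq * (a ^ (1 / qq) + b ^ (1 / qq)) ^ qq
            ≤ ((d : ℝ) ^ q * ((sd x y : ℝ) + 1) ^ q) * (2 ^ q * (a + b)) :=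
              mul_le_mul h6 h7 (by positivity) (by positivity)
          _ ≤ ((d : ℝ) ^ q * ((sd x y : ℝ) + 1) ^ q) *
              (2 ^ q * (((4 * qq) ^ qq * K + (2 * qq) ^ qq * 9) * P)) := by gcongr
          _ = _ := by ring

theorem oscB (trf : TrfStmt) : OscBStmt := by
  intro d B₀ hd hB₀
  obtain ⟨A, hA, hcst⟩ := cstB hd hB₀
  refine ⟨A, hA, fun q => ?_⟩
  rcases Nat.eq_zero_or_pos q with hq | hq
  · refine ⟨1, one_pos, ?_⟩
    intro σ E N s S c hσ hσ1 hE hs hS hSN hcN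
    rw [hq]
    simp only [pow_zero]
    rw [lintegral_one]
    have h1 : (1 : ℝ) ≤ |σ| ^ (-A) := by
      have hp : 0 < |σ| := abs_pos.mpr hσ
      have := Real.one_le_rpow_of_pos_of_le_one_of_nonpos hp hσ1 (show -A ≤ 0 by linarith)
      exact this
    have h2 : (1 : ℝ) ≤ (s : ℝ) ^ (0 + d + 1) := one_le_pow₀ (by exact_mod_cast hs)
    have h3 : (PP d (gl σ)) Set.univ = 1 := measure_univ
    rw [h3, ← ENNReal.ofReal_one]
    apply ENNReal.ofReal_le_ofReal
    nlinarith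
  obtain ⟨C1, hC1, hcst'⟩ := hcst q hq
  obtain ⟨K, hK, hK'⟩ := sum_tail q
  refine ⟨3 ^ d * 2 ^ q * (C1 * 2 ^ q + 16 * K), by positivity, ?_⟩
  intro σ E N s S c hσ hσ1 hE hs hS hSN hcN
  have hσp : 0 < |σ| := abs_pos.mpr hσ
  have hc0 : c ∈ box (0 : Site d) N := hcN (self_mem c s)
  have hB : (0 : ℝ) ≤ 16 / |σ| := by positivity
  have key : ∀ x ∈ box c s, ∃ G : (Site d → ℝ) → ℝ≥0∞, Measurable G ∧
      (∀ V, (ENNReal.ofReal |FD V (box 0 N) E S x - FD V (box 0 N) E S c|) ^ q ≤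
        2 ^ q * ((ENNReal.ofReal (DL (box 0 N) E V c x)) ^ q + G V)) ∧
      ∫⁻ V, G V ∂(PP d (gl σ)) ≤ ENNReal.ofReal (16 / |σ| * K) := by
    intro x hx
    have hx0 := hcN hx
    obtain ⟨G, hG, hG1, hG2⟩ := tail_bound (PP d (gl σ)) hq (B := 16 / |σ|) (K := K)
      (T := fun V => |FD V (box 0 N) E S c - FD V (box 0 N) E S x| - DL (box 0 N) E V c x) hB hK'
      (fun t => by
        refine le_trans (measure_mono ?_) (trf d N σ E t S c x hd hσ hS hSN hc0 hx0)
        intro V hV hcon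
        have hV' : t < |FD V (box 0 N) E S c - FD V (box 0 N) E S x| - DL (box 0 N) E V c x := hV
        linarith)
    refine ⟨G, hG, fun V => ?_, hG2⟩
    have h1 : ENNReal.ofReal |FD V (box 0 N) E S x - FD V (box 0 N) E S c| ≤
        ENNReal.ofReal (DL (box 0 N) E V c x) +
          ENNReal.ofReal (|FD V (box 0 N) E S c - FD V (box 0 N) E S x| -
            DL (box 0 N) E V c x) := by
      have h2 : |FD V (box 0 N) E S x - FD V (box 0 N) E S c| = DL (box 0 N) E V c x +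
          (|FD V (box 0 N) E S c - FD V (box 0 N) E S x| - DL (box 0 N) E V c x) := by
        rw [abs_sub_comm]
        ring
      rw [h2]
      exact ENNReal.ofReal_add_le
    calc (ENNReal.ofReal |FD V (box 0 N) E S x - FD V (box 0 N) E S c|) ^ q
        ≤ (ENNReal.ofReal (DL (box 0 N) E V c x) +
          ENNReal.ofReal (|FD V (box 0 N) E S c - FD V (box 0 N) E S x| -
            DL (box 0 N) E V c x)) ^ q := pow_le_pow_left' h1 q
      _ ≤ _ := (add_pow_le' _ _ q).trans (mul_le_mul_right (add_le_add le_rfl (hG1 V)) _)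
  choose! G hGm hG1 hG2 using key
  have hmD : ∀ x, Measurable fun V : Site d → ℝ => (ENNReal.ofReal (DL (box 0 N) E V c x)) ^ q :=
    fun x => (H93C.measurable_DL (box 0 N) E c x).ennreal_ofReal.pow_const q
  calc ∫⁻ V, (Pool.Agent.LE.osc V N E S c s) ^ q ∂(PP d (gl σ))
      ≤ ∫⁻ V, ∑ x ∈ box c s, 2 ^ q * ((ENNReal.ofReal (DL (box 0 N) E V c x)) ^ q + G x V)
          ∂(PP d (gl σ)) := by
        refine lintegral_mono fun V => ?_
        exact (osc_pow_le V N E S c s q).trans (Finset.sum_le_sum fun x hx => hG1 x hx V)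
    _ = ∑ x ∈ box c s, ∫⁻ V, 2 ^ q * ((ENNReal.ofReal (DL (box 0 N) E V c x)) ^ q + G x V)
          ∂(PP d (gl σ)) :=
        lintegral_finsetSum _ fun x hx => ((hmD x).add (hGm x hx)).const_mul _
    _ ≤ ∑ x ∈ box c s, ENNReal.ofReal (|σ| ^ (-A) * (s : ℝ) ^ q * (2 ^ q * (C1 * 2 ^ q + 16 * K))) := by
        refine Finset.sum_le_sum fun x hx => ?_
        have hL : ∫⁻ V, 2 ^ q * ((ENNReal.ofReal (DL (box 0 N) E V c x)) ^ q + G x V)
            ∂(PP d (gl σ)) = 2 ^ q * (∫⁻ V, (ENNReal.ofReal (DL (box 0 N) E V c x)) ^ q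
              ∂(PP d (gl σ)) + ∫⁻ V, G x V ∂(PP d (gl σ))) := by
          have hL1 := lintegral_const_mul (μ := PP d (gl σ)) ((2 : ℝ≥0∞) ^ q)
            ((hmD x).add (hGm x hx))
          have hL2 := lintegral_add_left (μ := PP d (gl σ)) (hmD x) (G x)
          rw [← hL2]
          exact hL1
        rw [hL]
        have h1 := hcst' σ E N c x hσ hσ1 hE hc0 (hcN hx)
        have hsd : (sd c x : ℝ) ≤ s := by
          have : sd c x ≤ s := mem_box.mp hx
          exact_mod_cast this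
        have hs1 : (1 : ℝ) ≤ s := by exact_mod_cast hs
        have hR : 0 < |σ| ^ (-A) := Real.rpow_pos_of_pos hσp _
        have h2 : C1 * |σ| ^ (-A) * ((sd c x : ℝ) + 1) ^ q ≤
            C1 * |σ| ^ (-A) * (2 ^ q * (s : ℝ) ^ q) := by
          apply mul_le_mul_of_nonneg_left _ (by positivity)
          rw [← mul_pow]
          apply pow_le_pow_left₀ (by positivity)
          linarith
        have h3 : 16 / |σ| * K ≤ 16 * |σ| ^ (-A) * K * (s : ℝ) ^ q := by
          have h4 : 1 / |σ| ≤ |σ| ^ (-A) := by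
            rw [one_div, ← Real.rpow_neg_one]
            exact Real.rpow_le_rpow_of_exponent_ge hσp hσ1 (by linarith)
          have h5 : (1 : ℝ) ≤ (s : ℝ) ^ q := one_le_pow₀ hs1
          calc 16 / |σ| * K = 16 * K * (1 / |σ|) * 1 := by ring
            _ ≤ 16 * K * |σ| ^ (-A) * (s : ℝ) ^ q := by
                apply mul_le_mul _ h5 zero_le_one (by positivity)
                exact mul_le_mul_of_nonneg_left h4 (by positivity)
            _ = _ := by ring
        have h6 : (2 : ℝ≥0∞) ^ q = ENNReal.ofReal (2 ^ q) := by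
          rw [ENNReal.ofReal_pow (by norm_num)]
          congr 1
          exact (ENNReal.ofReal_ofNat 2).symm
        calc 2 ^ q * (∫⁻ V, (ENNReal.ofReal (DL (box 0 N) E V c x)) ^ q ∂(PP d (gl σ)) +
              ∫⁻ V, G x V ∂(PP d (gl σ)))
            ≤ ENNReal.ofReal (2 ^ q) * (ENNReal.ofReal (C1 * |σ| ^ (-A) * (2 ^ q * (s : ℝ) ^ q)) +
                ENNReal.ofReal (16 * |σ| ^ (-A) * K * (s : ℝ) ^ q)) := by
              rw [h6]
              refine mul_le_mul_right (add_le_add (h1.trans (ENNReal.ofReal_le_ofReal h2))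
                ((hG2 x hx).trans (ENNReal.ofReal_le_ofReal h3))) _
          _ = _ := by
              rw [← ENNReal.ofReal_add (by positivity) (by positivity),
                ← ENNReal.ofReal_mul (by positivity)]
              congr 1
              ring
    _ ≤ ENNReal.ofReal (3 ^ d * 2 ^ q * (C1 * 2 ^ q + 16 * K) * |σ| ^ (-A) *
          (s : ℝ) ^ (q + d + 1)) := by
        rw [Finset.sum_const, card_box, nsmul_eq_mul]
        have hs1 : (1 : ℝ) ≤ s := by exact_mod_cast hs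
        have hR : 0 < |σ| ^ (-A) := Real.rpow_pos_of_pos hσp _
        have h7 : (((2 * s + 1) ^ d : ℕ) : ℝ≥0∞) = ENNReal.ofReal ((2 * (s : ℝ) + 1) ^ d) := by
          rw [← ENNReal.ofReal_natCast]
          congr 1
          push_cast
          ring
        rw [h7, ← ENNReal.ofReal_mul (by positivity)]
        apply ENNReal.ofReal_le_ofReal
        have h8 : (2 * (s : ℝ) + 1) ^ d ≤ 3 ^ d * (s : ℝ) ^ d := by
          rw [← mul_pow]
          apply pow_le_pow_left₀ (by positivity)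
          linarith
        calc (2 * (s : ℝ) + 1) ^ d * (|σ| ^ (-A) * (s : ℝ) ^ q * (2 ^ q * (C1 * 2 ^ q + 16 * K)))
            ≤ (3 ^ d * (s : ℝ) ^ d) *
              (|σ| ^ (-A) * (s : ℝ) ^ q * (2 ^ q * (C1 * 2 ^ q + 16 * K))) :=
              mul_le_mul_of_nonneg_right h8 (by positivity)
          _ = (3 ^ d * 2 ^ q * (C1 * 2 ^ q + 16 * K) * |σ| ^ (-A) * (s : ℝ) ^ (q + d)) * 1 := by
              rw [pow_add]
              ring
          _ ≤ (3 ^ d * 2 ^ q * (C1 * 2 ^ q + 16 * K) * |σ| ^ (-A) * (s : ℝ) ^ (q + d)) * s :=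
              mul_le_mul_of_nonneg_left hs1 (by positivity)
          _ = _ := by
              rw [pow_succ]
              ring


end Pool.Agent.LE.H28W
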