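import Pool.Agent.LE.StmtsY
import Pool.Agent.Helper54_LEW.CPF
import Pool.Agent.Helper73_BED.Edge
import Pool.Agent.Helper3_LEW.CTX

/-! SGE: above the edge all the sites are good. -/

set_option autoImplicit false
set_option linter.unusedSectionVars false

open scoped Topology ENNReal NNReal
open MeasureTheory Filter ProbabilityTheory

noncomputable section

namespace Pool.Agent.LE.H28W

open Matrix Pool.Agent.Anderson Pool.Agent.Loc Pool.Agent.Mob Pool.Agent.Helper54.Bal Pool.Agent.BED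
  Pool.Agent.LE

variable {d M : ℕ}

theorem qform_flat [NeZero M] {z μ : ℝ} {W : Site d → ℝ} (Λ : Finset (Site d))
    (hΛ : ∀ y ∈ Λ, ∀ i, 2 * (|y i| + 1) < (M : ℤ))
    (hF : Flat z μ (fun x : Tor d M => W (rep x))) (u : Site d → ℝ) : 0 ≤ qform W Λ z u := by
  classical
  set F : Site d → ℝ := fun y => if y ∈ Λ then u y else 0 with hFdef
  have hF0 : ∀ y, y ∉ Λ → F y = 0 := fun y hy => by rw [hFdef]; simp only [if_neg hy]
  have hF1 : ∀ y ∈ Λ, F y = u y := fun y hy => by rw [hFdef]; simp only [if_pos hy]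
  have hq := H73.quad_torus (M := M) z W Λ hΛ F hF0
  have h1 : ∑ y ∈ Λ, F y * ((z - W y) * F y - ∑ w ∈ Λ, hop y w * F w) = qform W Λ z u := by
    rw [qform_eq]
    unfold hf
    rw [Finset.mul_sum, ← Finset.sum_sub_distrib, ← Finset.sum_sub_distrib]
    refine Finset.sum_congr rfl fun y hy => ?_
    rw [hF1 y hy]
    have h2 : ∑ w ∈ Λ, hop y w * F w = ∑ w ∈ Λ, hop y w * u w :=
      Finset.sum_congr rfl fun w hw => by rw [hF1 w hw]
    rw [h2]
    have h3 : ∑ w ∈ Λ, u y * hop y w * u w = u y * ∑ w ∈ Λ, hop y w * u w := by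
      rw [Finset.mul_sum]
      exact Finset.sum_congr rfl fun w _ => by ring
    rw [h3]
    ring
  rw [← h1, ← hq]
  by_cases hne : (fun x : Tor d M => F (rep x)) = 0
  · refine le_of_eq ?_
    symm
    refine Finset.sum_eq_zero fun x _ => ?_
    have := congrFun hne x
    simp only [Pi.zero_apply] at this
    rw [this, zero_mul]
  · exact (pos_of_posDef hF.2.1 hne).le

theorem det_of_form {V : Site d → ℝ} {Λ : Finset (Site d)} {E g : ℝ} (hg : 0 < g)
    (h : ∀ u : Site d → ℝ, g * ∑ y ∈ Λ, u y ^ 2 ≤ qform V Λ E u) : (RM V Λ E).det ≠ 0 := by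
  intro hd
  obtain ⟨v, hv, hv0⟩ := Matrix.exists_mulVec_eq_zero_iff.2 hd
  apply hv
  set u : Site d → ℝ := fun z => if hz : z ∈ Λ then v ⟨z, hz⟩ else 0 with hu
  have huv : (fun z : Λ => u z) = v := by
    funext z
    simp [hu]
  have h1 := h u
  rw [qform_eq_dot, huv, hv0, dotProduct_zero] at h1
  have h2 : ∑ z ∈ Λ, u z ^ 2 ≤ 0 := by
    by_contra hcon
    push Not at hcon
    have := mul_pos hg hcon
    linarith
  have h3 : ∑ z ∈ Λ, u z ^ 2 = 0 := le_antisymm h2 (Finset.sum_nonneg fun z _ => sq_nonneg _)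
  rw [Finset.sum_eq_zero_iff_of_nonneg fun z _ => sq_nonneg _] at h3
  funext z
  have h4 := h3 z z.2
  rw [← huv]
  exact pow_eq_zero_iff (two_ne_zero) |>.1 h4

theorem sge : SgeStmt := by
  intro d M' L _ v σ z μ E δ p hd hσ hv hμ hz hprob hδ hδ1 hE hL hM hlog
  classical
  set f : (Site d → ℝ) → (Tor d M' → ℝ) := fun V x => V (0 + rep x) with hf
  set B : Set (Site d → ℝ) := f ⁻¹' {U | ¬ Flat z μ U} with hB
  have pB : PP d (gl σ) B ≤ ENNReal.ofReal p := by
    have hfm : Measurable f := measurable_pi_lambda _ fun x => measurable_pi_apply _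
    refine (Measure.le_map_apply hfm.aemeasurable _).trans ?_
    have h4 := H73.lawT d M' (Site d → ℝ) (PP d (gl σ)) (H54W.xi σ 0) (H54W.measurable_xi σ 0)
      (H54W.map_xi hσ 0) (H54W.indep_xi 0) σ v hv
    have h5 : (fun (V : Site d → ℝ) (x : Tor d M') => σ * H54W.xi σ 0 (rep x) V) = f := by
      funext V x
      simp only [H54W.xi, hf]
      field_simp
    rw [h5] at h4
    rw [h4]
    exact hprob
  refine (measure_mono ?_).trans pB
  intro V hV
  by_contra hcon
  rw [hB, Set.mem_preimage, Set.mem_ofPred_eq, not_not] at hcon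
  apply hV
  have hflat : Flat z μ (fun x : Tor d M' => V (rep x)) := by
    have e : f V = fun x : Tor d M' => V (rep x) := by
      funext x
      simp only [hf, zero_add]
    rw [← e]
    exact hcon
  have hd0 : (1 : ℝ) ≤ d := by exact_mod_cast hd
  have hsδ : 0 < Real.sqrt δ := Real.sqrt_pos.2 hδ
  have hsδ2 : Real.sqrt δ ^ 2 = δ := Real.sq_sqrt hδ.le
  have hsδ1 : Real.sqrt δ ≤ 1 := by
    rw [Real.sqrt_le_one]
    exact hδ1
  intro s hs
  rw [mem_box] at hs
  have hs' := sd_le_iff.1 hs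
  have hΛ : ∀ y ∈ box s L, ∀ i, 2 * (|y i| + 1) < (M' : ℤ) := by
    intro y hy i
    rw [mem_box] at hy
    have h1 := sd_le_iff.1 hy i
    have h2 := hs' i
    have h3 : |y i| ≤ |s i - y i| + |s i| := by
      calc |y i| = |s i - (s i - y i)| := by ring_nf
        _ ≤ |s i| + |s i - y i| := abs_sub _ _
        _ = _ := by ring
    have h4 : |s i| ≤ L := by
      have : |(0 : Site d) i - s i| = |s i| := by
        rw [Pi.zero_apply, zero_sub, abs_neg]
      rw [← this]
      exact h2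
    have h5 : (8 * (L : ℤ) + 3) ≤ M' := by exact_mod_cast hM
    linarith
  have hform : ∀ u : Site d → ℝ, δ * ∑ y ∈ box s L, u y ^ 2 ≤ qform V (box s L) E u := by
    intro u
    have h1 := qform_flat (box s L) hΛ hflat u
    rw [qform_eq] at h1 ⊢
    have h2 : (z + δ) * ∑ y ∈ box s L, u y ^ 2 ≤ E * ∑ y ∈ box s L, u y ^ 2 :=
      mul_le_mul_of_nonneg_right hE (Finset.sum_nonneg fun y _ => sq_nonneg _)
    linarith
  have h1 := det_of_form hδ hform
  have hLB : LB V (box s L) E 1 δ := by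
    intro u
    rw [one_mul]
    exact hform u
  have h2 := fun x y => H3Y.combes_thomas_sqrt hd hδ hδ1 abs_one hLB x y
  refine ⟨h1, fun u hu => (h2 s u).trans ?_⟩
  rw [hu]
  have hL0 : (0 : ℝ) < L := by exact_mod_cast hL
  -- (2/δ) exp(-√δ L/(2d)) ≤ exp(-√δ L/(8d))
  have h3 : Real.log (8 / δ) ≤ Real.sqrt δ / (8 * d) * L := by
    rw [div_mul_eq_mul_div, le_div_iff₀ (by positivity)]
    linarith
  have h4 : 8 / δ ≤ Real.exp (Real.sqrt δ / (8 * d) * L) := by
    rw [← Real.log_le_iff_le_exp (by positivity)]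
    exact h3
  have h5 : 2 / δ ≤ 8 / δ := by
    apply div_le_div_of_nonneg_right (by norm_num) hδ.le
  calc 2 / δ * Real.exp (-(Real.sqrt δ / (2 * d)) * L)
      ≤ Real.exp (Real.sqrt δ / (8 * d) * L) * Real.exp (-(Real.sqrt δ / (2 * d)) * L) := by
        gcongr
        exact h5.trans h4
    _ = Real.exp (Real.sqrt δ / (8 * d) * L + -(Real.sqrt δ / (2 * d)) * L) := by
        rw [Real.exp_add]
    _ ≤ Real.exp (-(Real.sqrt δ / (8 * d)) * L) := by
        apply Real.exp_le_exp.2
        have h6 : Real.sqrt δ / (2 * d) = 4 * (Real.sqrt δ / (8 * d)) := by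
          field_simp
          ring
        rw [h6]
        have h7 : 0 ≤ Real.sqrt δ / (8 * d) * L := by positivity
        linarith

end Pool.Agent.LE.H28W
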